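import Pool.Agent.Q226.ADA.Final
import Pool.Agent.Q226.SEN.Proj

/-!
# d-to-1 games with perfect completeness are not hard under adaptive reductions of constant depth

A reduction writes down its instances bit by bit: `T` is a finite type of possible constraints (with
vertices `src e`, `tgt e` and a map `π e` from the labels `A` to the labels `B`, all arbitrary; all
`d`-to-1 games with any `d` and any label sets are included; repeated constraints are allowed),
and a game is a subset of `T`. The reductions considered here are randomised (the coins are a uniform
element `ρ` of a finite type `R`) and adaptive: the next query `query ρ l x` and the output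
`output ρ l x` after `k` queries depend on the coins, on the list `l` of the answers given so far and
on the input `x` of `N` bits. All queries are nonempty; their numbers of constraints may vary.
`AdaptivelyReduces` says that for every oracle which is right on all nonempty games of value `1`, and
of value at most `ε` (its other answers are arbitrary), and for every `x` the output is the parity of
`x` with probability at least `1 / 2 + γ`.

(1) Reductions of arbitrary complexity: if every present constraint can be destroyed by at most `s`
changes of one input bit, every equality of two queries on one path changes its truth value by at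
most `s` such changes, and the output by at most `s` such changes, then
`2 γ N ≤ s (2 k / (1 - ε) + k (k - 1) / 2 + 1)`.

(2) Adaptive reductions of constant depth: let all bits of the queries and the output be computed by
circuits (one for each `ρ` and `l`, nonuniform) with NOT gates and AND and OR gates of unbounded
fan-in, of depth at most `h` and with at most `M` gates. If `N` is large, more precisely
`γ (1 - ε) N ≥ X₀ k ^ (h + 4)` for a number `X₀` which depends on `h` only, then
`M + k ≥ γ 2 ^ ((γ (1 - ε) N / k ^ 2) ^ (1 / (h + 2)) / 100)`.

So for no `d`, no `ε < 1` and no label sets is the problem of Khot's conjecture hard for `NP`, and not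
even for parity, under adaptive randomised reductions in `AC^0` (Turing reductions) with `N ^ o(1)`
queries. Our hand-in `ConstantDepthReductions` treats nonadaptive reductions (all queries with the
same number of constraints) with more queries, and shows that the gap is the reason.

Proof of (2). The queries are answered by a random oracle: independently for each game `g`, the answer
is `1` with probability `f g`, the value of `g`, rescaled and truncated such that it is `1` and `0` on
the two sides of the promise. This oracle is always right, and `f` is Lipschitz. The law of the list
of the answers can be computed, if one takes into account that equal queries have equal answers. For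
two inputs which differ in one bit the difference of the probabilities of the output `1` is at most the
sum of the differences of the conditional probabilities, each weighted with the smaller of the two
probabilities of the history. Hence the differences can be summed over all inputs and all bits, and
each destroyed constraint is charged to the history in which it is queried. Under a random
restriction which leaves many variables free all bits of all queries (for all `2 ^ k` lists of
answers) and all equality tests become decision trees of small depth, so that they have few sensitive
free variables.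
-/

set_option autoImplicit false

namespace Pool.Agent.Results.MP_62e2f2_lc.AdaptiveReductions

open Finset DomAC0 Pool.Agent.Q226.SEN Pool.Agent.Q226.ADA
open scoped Classical

/-- See above. The definitions of `run`, `Right`, `AdaptivelyReduces`, `NonadaptivelyReduces` are in
`Pool/Agent/Q226/ADA/Defs.lean`, those of `size`, `sat`, `toggle`, `par` in
`Pool/Agent/Q226/SEN/Defs.lean`, of `ProjSat` in `Pool/Agent/Q226/SEN/Proj.lean`, and of circuits in
`Pool/Agent/H568R2/Defs.lean`. -/
theorem result :
    -- (1) arbitrary complexity, few sensitive bits
    (∀ (N k s : ℕ) (T U V A B R : Type) [Fintype T] [Fintype R] [Nonempty R] (src : T → U)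
      (tgt : T → V) (π : T → A → B) (ε γ : ℝ)
      (query : R → List Bool → (Fin N → Bool) → T → Bool)
      (output : R → List Bool → (Fin N → Bool) → Bool),
      0 ≤ ε → ε < 1 → (∀ ρ l x, l.length < k → 1 ≤ size (query ρ l x)) →
      AdaptivelyReduces (ProjSat src tgt π) 1 ε k query output γ →
      (∀ ρ l x e, l.length < k → query ρ l x e = true →
        (univ.filter fun i => query ρ l (toggle i x) e = false).card ≤ s) →
      (∀ ρ l l' x, l.length < k → l' <:+ l → l' ≠ l →
        (univ.filter fun i => ¬ (query ρ l' x = query ρ l x ↔
          query ρ l' (toggle i x) = query ρ l (toggle i x))).card ≤ s) →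
      (∀ ρ l x, l.length = k →
        (univ.filter fun i => output ρ l x ≠ output ρ l (toggle i x)).card ≤ s) →
      2 * γ * N ≤ s * (2 * (1 / (1 - ε)) * k + k * (k - 1) / 2 + 1)) ∧
    -- (2) adaptive reductions of small depth
    ∀ h : ℕ, ∃ X₀ : ℝ, ∀ (N k M : ℕ) (T U V A B R : Type) [Fintype T] [Fintype R] [Nonempty R]
      (src : T → U) (tgt : T → V) (π : T → A → B) (ε γ : ℝ)
      (C : R → List Bool → Circuit (Fin N)) (out : ∀ ρ l, T → Fin N ⊕ Fin (C ρ l).size)
      (fin : ∀ ρ l, Fin N ⊕ Fin (C ρ l).size),
      0 ≤ ε → ε < 1 → 0 < γ → 1 ≤ k →
      (∀ ρ l, l.length ≤ k → (C ρ l).size ≤ M) →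
      (∀ ρ l e, l.length < k → (C ρ l).nodeDepth (out ρ l e) ≤ h) →
      (∀ ρ l, l.length = k → (C ρ l).nodeDepth (fin ρ l) ≤ h) →
      (∀ ρ l x, l.length < k → 1 ≤ size (fun e => (C ρ l).nodeVal x (out ρ l e))) →
      AdaptivelyReduces (ProjSat src tgt π) 1 ε k
        (fun ρ l x e => (C ρ l).nodeVal x (out ρ l e))
        (fun ρ l x => (C ρ l).nodeVal x (fin ρ l)) γ →
      X₀ * (k : ℝ) ^ (h + 4) ≤ γ * (1 - ε) * N →
      γ * (2 : ℝ) ^ ((γ * (1 - ε) * N / (k : ℝ) ^ 2) ^ (1 / (h + 2 : ℝ)) / 100) ≤ M + k := by
  refine ⟨?_, fun h => ?_⟩
  · intro N k s T U V A B R _ _ _ src tgt π ε γ query output h0 h1 hne hred h2 h3 h4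
    exact few (ProjSat src tgt π) h0 h1 query output hne hred s h2 h3 h4
  · obtain ⟨X₀, hX⟩ := final h
    refine ⟨X₀, ?_⟩
    intro N k M T U V A B R _ _ _ src tgt π ε γ C out fin h2 h3 h4 h5 h6 h7 h8 h9 h10 h11
    exact hX (ProjSat src tgt π) 1 ε γ C out fin h2 h3 le_rfl h4 h5 h6 h7 h8 h9 h10 h11

end Pool.Agent.Results.MP_62e2f2_lc.AdaptiveReductions
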