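import Pool.Agent.Q226.SEN.Ac0
import Pool.Agent.Q226.SEN.ProjD

/-!
# d-to-1 games with perfect completeness are not hard under randomised constant-depth reductions

Circuits (`Circuit`, `nodeVal`, `nodeDepth` in `Pool/Agent/H568R2/Defs.lean`) have NOT gates and AND
and OR gates of unbounded fan-in and are nonuniform. A randomised circuit is a finite family `C ρ`,
`ρ ∈ R` uniform. It computes `k` instances of Label Cover: `T` is a finite type of possible
constraints, with vertices `src e`, `tgt e` and a map `π e` between the label sets (all arbitrary, so
all `d`-to-1 games with any `d` and any label sets are included, with repeated constraints), and the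
node `out ρ j e` tells whether the constraint `e` is present in the `j`-th instance. All instances
have `m` constraints. The answers are evaluated by an arbitrary function (which may depend on `ρ`).
`Reduces S 1 ε m query eval γ`: for every oracle which is right on the instances with `m`
constraints of value `1`, and on those of value at most `ε`, and for every input `x` of `N` bits, the
output is the parity of `x` with probability at least `1 / 2 + γ`.

(1) If such a randomised nonadaptive reduction from parity to the gap problem (value `1`, or at most
`ε < 1`) is computed by circuits with at most `M` gates, and depth at most `h`, then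
`M ≥ (γ (1 - ε) / k) 2 ^ (X ^ (1 / (h + 1)) / 100)` with `X = γ (1 - ε) N / k`, if `X` is large.
So for polynomial size and constant depth the number `k` of queries is at least
`γ (1 - ε) N / (log N) ^ O(1)`; with `k = N` queries a trivial reduction exists (ask for every bit of
the input). In particular, for no `d`, no `ε < 1` and no label sets is the problem of Khot's
conjecture hard for `NP`, or even for parity, under randomised many-one reductions in `AC0`, or
under randomised nonadaptive reductions in `AC0` with `N ^ (1 - c)` queries and evaluation of
unlimited power.

(2) This is due to the gap. For every `d ≥ 2` the problem whether the value of a `d`-to-1 game with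
label sets of size `3` and `3 d` is `1`, is `NP`-complete under projections: for every `n` the
three-colourability of a graph on `n` vertices is the same as value `1` of such a game whose
constraints are always present, or are present if a certain pair of vertices is adjacent.

Proof of (1). Answer the queries by the oracle for value at least `θ` with random `θ` between `ε` and
`1`: if a bit of the input is flipped then the values of the queries change by at least
`2 γ (1 - ε)` together, on the average over `ρ`, and so many constraints disappear. Apply a random
restriction. For most `ρ` all bits of the queries become decision trees of small depth `s`, and then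
at most `s` of the free bits can destroy a given constraint; sum over all free bits.

The many-one case for unique games is our hand-in `MP_325f1f_lc.ConstantDepthReductions`; new here are
randomised reductions, several queries with arbitrary evaluation, perfect completeness and (2).
-/

set_option autoImplicit false

namespace Pool.Agent.Results.MP_62e2f2_lc.ConstantDepthReductions

open Finset DomAC0 Pool.Agent.Q226.SEN
open scoped Classical

/-- (1) For every depth `h` there is `X₀` with the following property. Let `C ρ`, `ρ ∈ R`, be circuits
with `N` inputs and at most `M` gates, and let the nodes `out ρ j e` of depth at most `h` compute, for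
every input, `k ≥ 1` projection games with `m ≥ 1` constraints. If this is, with the evaluation
`eval`, a reduction from parity to the games of value `1` or at most `ε < 1` with advantage `γ > 0`,
and `γ (1 - ε) N / k ≥ X₀`, then
`(k / (γ (1 - ε))) M ≥ 2 ^ ((γ (1 - ε) N / k) ^ (1 / (h + 1)) / 100)`.
(2) For all `d ≥ 2` and `n` there are `d`-to-1 constraints `T` with label sets of size `3` and `3 d`,
and for every graph `G` with vertices `0, …, n - 1` a nonempty game `g G` in which each constraint is
always present or present if and only if a certain pair is adjacent, such that `G` is three-colourable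
if and only if some labelling satisfies all constraints of `g G`. -/
theorem result :
    (∀ h : ℕ, ∃ X₀ : ℝ, ∀ (N k m M : ℕ) (T U V A B R : Type) [Fintype T] [Fintype R] [Nonempty R]
      (src : T → U) (tgt : T → V) (π : T → A → B) (ε γ : ℝ) (C : R → Circuit (Fin N))
      (out : ∀ ρ, Fin k → T → Fin N ⊕ Fin (C ρ).size) (eval : R → (Fin k → Bool) → Bool),
      0 ≤ ε → ε < 1 → 0 < γ → 1 ≤ m → 1 ≤ k → (∀ ρ, (C ρ).size ≤ M) →
      (∀ ρ j e, (C ρ).nodeDepth (out ρ j e) ≤ h) →
      (∀ ρ j x, size (fun e => (C ρ).nodeVal x (out ρ j e)) = m) →
      Reduces (ProjSat src tgt π) 1 ε m (fun ρ j x e => (C ρ).nodeVal x (out ρ j e)) eval γ →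
      X₀ ≤ γ * (1 - ε) * N / k →
      (2 : ℝ) ^ ((γ * (1 - ε) * N / k) ^ (1 / (h + 1 : ℝ)) / 100) ≤ k / (γ * (1 - ε)) * M) ∧
    ∀ d : ℕ, 2 ≤ d → ∀ n : ℕ,
      ∃ (T W V : Type) (_ : Fintype T) (w : T → W) (v : T → V) (π : T → Fin 3 × Fin d → Fin 3)
        (pair : T → Option (Fin n × Fin n)) (g : SimpleGraph (Fin n) → T → Bool),
        (∀ e c, (univ.filter fun a => π e a = c).card = d) ∧
        (∀ G, 1 ≤ size (g G)) ∧
        (∀ e G, g G e = true ↔ ∀ q, pair e = some q → G.Adj q.1 q.2) ∧
        ∀ G, G.Colorable 3 ↔ ∃ ℓ, ∀ e, g G e = true → ProjSat w v π ℓ e := by
  refine ⟨fun h => ?_, three_colour_d⟩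
  obtain ⟨X₀, hX⟩ := ac0_main h
  refine ⟨X₀, ?_⟩
  intro N k m M T U V A B R _ _ _ src tgt π ε γ C out eval h1 h2 h3 h4 h5 h6 h7 h8 h9 h10
  exact hX (ProjSat src tgt π) 1 ε γ C out eval h1 h2 h3 h4 h5 h6 h7 h8 h9 h10

end Pool.Agent.Results.MP_62e2f2_lc.ConstantDepthReductions
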