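import Pool.Agent.Q202.DT.Main

set_option autoImplicit false

/-!
# Khot's d-to-1 conjecture for tensor networks: subgames of one complete game

A tree tensor network `Net K V A W` (`Pool/Agent/TH700/PA/Defs.lean`) over a field `K` has leaves
which read one variable each (with a vector in `K ^ W` for each value); an inner node combines the
vectors of its two children by an arbitrary bilinear map. It accepts the input `x` if a linear form
of the vector of the root is not zero. There may be cancellations; the tree is arbitrary, and if
every right child is a leaf then this is a matrix product (a weighted ordered branching program, for
any order of the variables). The bond dimension is `card W`.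

A complete game `π` has `n` left vertices with labels in `Fin R`, `n` right vertices with labels in
`Fin (d * R)` and for every pair of a left and a right vertex a map of the labels of the right vertex
to the labels of the left vertex such that every label has exactly `d` preimages. The inputs are the
subgames of `π`: simple bipartite graphs `x`, given by the `n ^ 2` bits of the pairs. The constraint
maps are not part of the input.

(1) There is a constant `Γ` such that for all `d, g, h ≥ 1` and `R ≥ Γ d (g h) ^ 4` and all large `n`
there is a complete game `π` with the following property. Let `E` be any set of at least `n ^ 2 / h`
pairs. Consider a nonempty finite family of networks which read the bits of the pairs in `E` at most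
once (and the other bits any number of times), which all have the value `0` on every nonempty subgame
of value at most `1 / g`, while on every nonempty subgame of value `1` at least the proportion
`2 ^ (- μ)` of them has a value different from `0`. Then some network of the family has bond
dimension at least `2 ^ (- μ) 2 ^ (n / (Γ R (g h) ^ 4))`.

(2) For every complete game the number of the labelings which satisfy all edges of the subgame is
computed by a linear network over `ℚ` which reads every bit once and whose bond dimension is the
number `(d R ^ 2) ^ n` of all labelings; so it accepts exactly the subgames of value `1`, and (1) is
optimal up to the constant in the exponent for fixed `d, g, h, R`.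

The same bound holds for the case `d = 1`, in which satisfiable games are recognised in polynomial
time; so the model is too weak for this algorithm.

Proof of (1). A random complete game is spread out: any two labelings satisfy together at most
`O (n ^ 2 / R ^ 2)` constraints at whose right end they differ, and the number of constraints
satisfied between any two sets `A, B` of vertices by any labeling is at most
`max (O (n), 8 |A| |B| / R + 1)`. Fix the bits outside `E` to be `0`; this gives networks which read
every bit of `E` at most once. The tree gives a partition of `E` into `t = O ((g h) ^ 2)` parts of
bounded size and of rank at most the cube of the bond dimension. Plant a random labeling in each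
part, that is, take all edges of the part whose constraints it satisfies. Since every label has the
same number of preimages, given the labels of the left vertices the numbers of present edges at the
right vertices are independent with known means, so that with high probability there are at least
`|E| / (4 R)` edges and every part has only `O (1 / t)` of them. If a labeling satisfies the
proportion `1 / g` of the edges of the mixture, then it agrees with the planted labelings in `4 n`
pairs (part, vertex), or too many edges of a part lie between few vertices, or it satisfies too many
constraints together with a planted labeling from which it differs at the right ends. So all but the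
proportion `2 ^ (- Ω (n / (R (g h) ^ 2)))` of the mixtures have value at most `1 / g`. By the
replacement lemma of the starting library a dense set of accepted planted games has many accepted
mixtures unless the ranks are large.
-/

namespace Pool.Agent.Results.MP_62e2f2_lc.TensorNetworks

open Pool.Agent.TH700.PA (Net)
open Pool.Agent.Q202.DT

theorem result :
    (∃ Γ : ℕ, ∀ d g h R : ℕ, 1 ≤ d → 1 ≤ g → 1 ≤ h → Γ * d * (g * h) ^ 4 ≤ R →
      ∃ N₀ : ℕ, ∀ n ≥ N₀, ∃ π : Fin n × Fin n → DMap d R,
      ∀ E : Finset (Fin n × Fin n), n * n ≤ h * E.card →
      ∀ (μ : ℕ) (S : Type) [Fintype S] [Nonempty S] (K W : S → Type) [∀ ρ, Field (K ρ)]
        [∀ ρ, Fintype (W ρ)] (T : ∀ ρ, Net (K ρ) (Fin n × Fin n) Bool (W ρ))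
        (a : ∀ ρ, W ρ → K ρ),
        (∀ ρ, ∀ e ∈ E, (T ρ).reads e ≤ 1) →
        (∀ ρ x, Nonvoid x → ValueLe π g x → (T ρ).value (a ρ) x = 0) →
        (∀ x, Nonvoid x → ValueOne π x →
          Nat.card S ≤ 2 ^ μ * Nat.card {ρ // (T ρ).value (a ρ) x ≠ 0}) →
        ∃ ρ, 2 ^ n ≤ (2 ^ μ * Fintype.card (W ρ)) ^ (Γ * R * (g * h) ^ 4)) ∧
    (∀ d R n : ℕ, 1 ≤ n → ∀ π : Fin n × Fin n → DMap d R,
      ∃ (T : Net ℚ (Fin n × Fin n) Bool ((Fin n → Fin R) × (Fin n → Fin (d * R))))
        (a : (Fin n → Fin R) × (Fin n → Fin (d * R)) → ℚ),
        T.Linear ∧ (∀ e, T.reads e = 1) ∧ T.size = 2 * (n * n) - 1 ∧
          ∀ x, T.value a x ≠ 0 ↔ ValueOne π x) :=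
  ⟨main_dt, fun d R n hn π => upper_dt d R n hn π⟩

end Pool.Agent.Results.MP_62e2f2_lc.TensorNetworks
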